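import Pool.Agent.H706R2.PS.A3
import Pool.Agent.H706R2.PS.A4
import Pool.Agent.H706R2.PS.A5
import Pool.Agent.H706R2.PS.A6
import Pool.Agent.H706R2.PS.A7
import Pool.Agent.H706R2.PS.A9
import Pool.Agent.H706R2.PS.A10a
import Pool.Agent.H706R2.PS.A10b
import Pool.Agent.H706R2.PS.A11
import Pool.Agent.H706R2.PS.A12
import Pool.Agent.H706R2.PS.A13
import Pool.Agent.H706R2.PS.A15
import Pool.Agent.H706R2.PS.W14
import Pool.Agent.H706R2.PT.S2
import Pool.Agent.H706R2.PT.S3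
import Pool.Agent.H706R2.PT.Lam

/-!
# The Liouville function along `⌊α n^c⌋ + h` (at `c = 2`, `α = 1`, `h = 1`: `n^2 + 1`)
-/

set_option autoImplicit false

open Finset Filter MeasureTheory
open Pool.Agent.H706R2.PS

namespace Pool.Agent.Results.MP_de94cf_nt.MetricFamily

lemma law : A15 := a15 (a12 (a10b a3 (a10a (a7 a5 a6) (a9 a4))) a11) a13 w14

/-- For every `c > 1` (for instance `c = 2`) and all `α > 0` outside a set of Hausdorff dimension `< 1`: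
the Liouville function has mean value zero along `⌊α n^c⌋ + h`, for every shift `h`. -/
theorem result : ∀ c : ℝ, 1 < c → ∃ E : Set ℝ, dimH E < 1 ∧ ∀ α : ℝ, 0 < α → α ∉ E → ∀ h : ℕ,
    Tendsto (fun N : ℕ => (1 / (N : ℝ)) * ∑ n ∈ Icc 1 N,
      (-1 : ℝ) ^ (ArithmeticFunction.cardFactors (⌊α * (n : ℝ) ^ c⌋₊ + h))) atTop (nhds 0) := by
  intro c hc
  obtain ⟨d, hd, hlaw⟩ := s2 law c hc
  choose E hE hE2 using fun h : ℕ => hlaw (fun m => lamR (m + h)) ⟨1, fun m => abs_lamR _⟩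
  refine ⟨⋃ h, E h, ?_, ?_⟩
  · rw [dimH_iUnion]
    refine lt_of_le_of_lt (iSup_le hE) ?_
    rw [← ENNReal.ofReal_one]
    exact (ENNReal.ofReal_lt_ofReal_iff one_pos).mpr hd
  intro α hα hαE h
  have hnot : α ∉ E h := fun hh => hαE (Set.mem_iUnion.2 ⟨h, hh⟩)
  have h1 := hE2 h α hα hnot
  rw [Metric.tendsto_atTop] at h1 ⊢
  intro ε hε
  obtain ⟨N1, hN1⟩ := h1 (ε / 2) (by positivity)
  obtain ⟨N2, hN2⟩ := s3 c α 0 (ε / 8) (fun m => lamR (m + h)) hc hα (by positivity)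
    ⟨1, fun m => abs_lamR _⟩ (lam_shift h (ε / 8) (by positivity))
  refine ⟨max N1 N2, fun N hN => ?_⟩
  have h2 := hN1 N ((le_max_left _ _).trans hN)
  have h3 := hN2 N ((le_max_right _ _).trans hN)
  rw [Real.dist_eq, sub_zero] at h2 ⊢
  rw [sub_zero] at h3
  rw [mul_sub, abs_lt] at h2
  rw [abs_le] at h3
  have h4 : (1 / (N : ℝ)) * ∑ n ∈ Icc 1 N,
      (-1 : ℝ) ^ (ArithmeticFunction.cardFactors (⌊α * (n : ℝ) ^ c⌋₊ + h)) =
      (1 / (N : ℝ)) * ∑ n ∈ Icc 1 N, (fun m => lamR (m + h)) ⌊α * (n : ℝ) ^ c⌋₊ := rfl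
  rw [h4, abs_lt]
  constructor <;> linarith [h2.1, h2.2, h3.1, h3.2]

end Pool.Agent.Results.MP_de94cf_nt.MetricFamily
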